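import Pool.Agent.H67.HM.Stm2

open Polynomial MeasureTheory Filter Topology

namespace HM

namespace NSB_aux

theorem eq_sum {G : Type} [AddCommGroup G] (y : AddMonoidAlgebra ℂ G) :
    y = ∑ α ∈ y.coeff.support, AddMonoidAlgebra.single α (y.coeff α) := by
  conv_lhs => rw [← AddMonoidAlgebra.sum_coeff_single y]
  rfl

theorem sb_eq {G H : Type} [AddCommGroup G] [AddCommGroup H] (h : G →+ H)
    (y : AddMonoidAlgebra ℂ G) :
    sb h y = ∑ α ∈ y.coeff.support, AddMonoidAlgebra.single (h α) (y.coeff α) := by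
  conv_lhs => rw [eq_sum y]
  rw [map_sum]
  apply Finset.sum_congr rfl
  intro α _
  unfold sb
  rw [AddMonoidAlgebra.mapDomainRingHom_apply]
  exact AddMonoidAlgebra.mapDomain_single

theorem single_mul_coeff (g : ℤ) (c : ℂ) (x : RR) (k : ℤ) :
    (AddMonoidAlgebra.single g c * x).coeff k = c * x.coeff (k - g) := by
  conv_lhs => rw [eq_sum x, Finset.mul_sum]
  rw [AddMonoidAlgebra.coeff_sum, Finset.sum_apply']
  have h1 : ∀ β ∈ x.coeff.support,
      (AddMonoidAlgebra.single g c * AddMonoidAlgebra.single β (x.coeff β) : RR).coeff k =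
        if k - g = β then c * x.coeff β else 0 := by
    intro β _
    rw [AddMonoidAlgebra.single_mul_single, AddMonoidAlgebra.coeff_single, Finsupp.single_apply]
    by_cases hb : k - g = β
    · rw [if_pos hb, if_pos (by rw [← hb]; ring)]
    · rw [if_neg hb, if_neg (fun h => hb (by rw [← h]; ring))]
  rw [Finset.sum_congr rfl h1, Finset.sum_ite_eq]
  split_ifs with h2
  · rfl
  · rw [Finsupp.mem_support_iff, not_not] at h2
    rw [h2, mul_zero]

theorem key (hN : S_NRM) {G : Type} [AddCommGroup G] (h : G →+ ℤ) (y : AddMonoidAlgebra ℂ G)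
    (W : ℕ) (hs : ∀ α ∈ y.coeff.support, ∀ β ∈ y.coeff.support, α ≠ β →
      2 * (W : ℤ) < |h α - h β|) (r : ℝ) (hr : 1 ≤ r) (x : RR)
    (hx : ∀ k ∈ x.coeff.support, |k| ≤ W) : Nn r (x * sb h y) = Nn r x * Nn r y := by
  have hr0 : 0 < r := by linarith
  have h1 : x * sb h y = ∑ α ∈ y.coeff.support, AddMonoidAlgebra.single (h α) (y.coeff α) * x := by
    rw [sb_eq, mul_comm, Finset.sum_mul]
  have h2 := hN.disj r y.coeff.support
    (fun α => AddMonoidAlgebra.single (h α) (y.coeff α) * x) hr (by
    intro α hα β hβ hne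
    rw [Finset.disjoint_left]
    intro k hk hk'
    rw [Finsupp.mem_support_iff, single_mul_coeff] at hk hk'
    have e1 := hx (k - h α) (Finsupp.mem_support_iff.mpr (right_ne_zero_of_mul hk))
    have e2 := hx (k - h β) (Finsupp.mem_support_iff.mpr (right_ne_zero_of_mul hk'))
    have e3 := hs α hα β hβ hne
    have e4 : |h α - h β| ≤ |k - h β| + |k - h α| := by
      have : h α - h β = (k - h β) - (k - h α) := by ring
      rw [this]
      exact abs_sub _ _
    omega)
  have h3 : ∀ α ∈ y.coeff.support,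
      Nn r (AddMonoidAlgebra.single (h α) (y.coeff α) * x) ^ r =
        Nn r x ^ r * ‖y.coeff α‖ ^ r := by
    intro α _
    have e : AddMonoidAlgebra.single (h α) (y.coeff α) * x =
        y.coeff α • (AddMonoidAlgebra.single (h α) 1 * x) := by
      rw [← smul_mul_assoc, AddMonoidAlgebra.smul_single', mul_one]
    rw [e, hN.smul r _ _ hr, hN.single_mul r _ _ hr,
      Real.mul_rpow (norm_nonneg _) (hN.nonneg r x), mul_comm]
  rw [← h1, Finset.sum_congr rfl h3, ← Finset.mul_sum, ← hN.rpow r y hr,
    ← Real.mul_rpow (hN.nonneg r x) (hN.nonneg r y)] at h2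
  exact (Real.rpow_left_inj (hN.nonneg r _) (mul_nonneg (hN.nonneg r x) (hN.nonneg r y))
    hr0.ne').mp h2

end NSB_aux

theorem NSB_proved (hN : S_NRM) : S_NSB := by
  intro G _ h y W hs
  refine ⟨?_, ?_⟩
  · intro k hk
    by_contra hno
    push Not at hno
    rw [Finsupp.mem_support_iff] at hk
    apply hk
    rw [NSB_aux.sb_eq, AddMonoidAlgebra.coeff_sum, Finset.sum_apply']
    apply Finset.sum_eq_zero
    intro α hα
    rw [AddMonoidAlgebra.coeff_single, Finsupp.single_apply, if_neg]
    exact fun h => hno α hα h.symm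
  · intro r hr
    refine ⟨?_, fun x hx => NSB_aux.key hN h y W hs r hr x hx⟩
    have h1 := NSB_aux.key hN h y W hs r hr 1 (by
      intro k hk
      rw [Finsupp.mem_support_iff, AddMonoidAlgebra.one_def, AddMonoidAlgebra.coeff_single,
        Finsupp.single_apply] at hk
      have : (0 : ℤ) = k := by
        by_contra hne
        exact hk (if_neg hne)
      rw [← this]
      simp)
    rw [one_mul, hN.one r hr, one_mul] at h1
    exact h1

end HM
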