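import Pool.Agent.H67.HM.Stm2

open Polynomial MeasureTheory Filter Topology

namespace HM

namespace SYM_aux

/-- factors of the tensor product -/
noncomputable def xs {N : ℕ} (w : RR) (S : Finset (Fin N)) (a : Fin N) : RR :=
  if a ∈ S then w else 1

theorem prod_eq {N : ℕ} (w : RR) (S : Finset (Fin N)) :
    ∏ l ∈ S, em l w = ∏ a : Fin N, em a (xs w S a) := by
  classical
  have h1 : ∀ a : Fin N, em a (xs w S a) = if a ∈ S then em a w else 1 := by
    intro a
    unfold xs
    split_ifs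
    · rfl
    · exact map_one _
  rw [Finset.prod_congr rfl (fun a _ => h1 a), Finset.prod_ite_mem, Finset.univ_inter]

theorem one_coeff (k : ℤ) : (1 : RR).coeff k = if k = 0 then 1 else 0 := by
  rw [AddMonoidAlgebra.one_def, AddMonoidAlgebra.coeff_single, Finsupp.single_apply]
  simp only [eq_comm]

theorem mem_supp (hT : S_TEN) {N : ℕ} (w : RR) (hw : w.coeff 0 = 0) (S : Finset (Fin N))
    (α : Fin N → ℤ) (h : (∏ l ∈ S, em l w).coeff α ≠ 0) (a : Fin N) : a ∈ S ↔ α a ≠ 0 := by
  rw [prod_eq, hT.coeff] at h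
  have h1 := Finset.prod_ne_zero_iff.mp h a (Finset.mem_univ a)
  unfold xs at h1
  by_cases ha : a ∈ S
  · rw [if_pos ha] at h1
    refine ⟨fun _ h0 => h1 (by rw [h0, hw]), fun _ => ha⟩
  · rw [if_neg ha, one_coeff] at h1
    have h2 : α a = 0 := by
      by_contra hne
      exact h1 (if_neg hne)
    exact ⟨fun h => absurd h ha, fun h => absurd h2 h⟩

theorem main (hN : S_NRM) (hT : S_TEN) (r : ℝ) (N : ℕ) (w : RR) (hr : 1 ≤ r)
    (hw : w.coeff 0 = 0) (hn : Nn r w ≤ 1) (F : Finset (Finset (Fin N))) :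
    Nn r (∑ S ∈ F, ∏ l ∈ S, em l w) ≤ ((F.card : ℕ) : ℝ) ^ (1 / r) := by
  classical
  have hr0 : 0 < r := by linarith
  have h1 := hN.disj r F (fun S : Finset (Fin N) => ∏ l ∈ S, em l w) hr (by
    intro S _ S' _ hne
    rw [Finset.disjoint_left]
    intro α h h'
    rw [Finsupp.mem_support_iff] at h h'
    apply hne
    ext a
    rw [mem_supp hT w hw S α h a, mem_supp hT w hw S' α h' a])
  have h2 : ∀ S : Finset (Fin N), Nn r (∏ l ∈ S, em l w) ≤ 1 := by
    intro S
    rw [prod_eq, hT.nrm N _ r hr]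
    apply Finset.prod_le_one
    · intro a _; exact hN.nonneg r _
    · intro a _
      unfold xs
      split_ifs
      · exact hn
      · exact (hN.one r hr).le
  have h3 : Nn r (∑ S ∈ F, ∏ l ∈ S, em l w) ^ r ≤ (F.card : ℝ) := by
    rw [h1]
    calc ∑ S ∈ F, Nn r (∏ l ∈ S, em l w) ^ r ≤ ∑ S ∈ F, (1 : ℝ) := by
          apply Finset.sum_le_sum
          intro S _
          exact Real.rpow_le_one (hN.nonneg r _) (h2 S) hr0.le
      _ = (F.card : ℝ) := by simp
  have h4 : Nn r (∑ S ∈ F, ∏ l ∈ S, em l w) =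
      (Nn r (∑ S ∈ F, ∏ l ∈ S, em l w) ^ r) ^ (1 / r) := by
    rw [← Real.rpow_mul (hN.nonneg r _), mul_one_div_cancel hr0.ne', Real.rpow_one]
  rw [h4]
  exact Real.rpow_le_rpow (Real.rpow_nonneg (hN.nonneg r _) _) h3 (by positivity)

end SYM_aux

theorem SYM_proved (hT : S_TEN) (hN : S_NRM) : S_SYM := by
  intro r N w hr hw hn
  constructor
  · have h := SYM_aux.main hN hT r N w hr hw hn ((Finset.univ : Finset (Fin N)).powersetCard 1)
    rw [Finset.card_powersetCard, Finset.card_univ, Fintype.card_fin, Nat.choose_one_right,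
      Finset.powersetCard_one, Finset.sum_map] at h
    simpa using h
  · intro i
    have h := SYM_aux.main hN hT r N w hr hw hn ((Finset.univ : Finset (Fin N)).powersetCard i)
    rw [Finset.card_powersetCard, Finset.card_univ, Fintype.card_fin] at h
    exact h

end HM
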